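import Pool.Agent.Helper65.Bil.NClass

/-!
Piece BIL-M7c of MP_190632_an: `t Φ(t,s,x,u)` extended by `0` is smooth across `x = 0`, with
`C²` norm `O(ε)`.
-/

set_option autoImplicit false

namespace Pool.Agent.Helper65.Bil

open Real Set Filter Topology Pool.Agent.Helper58.Bil

section flat

variable {F : Type} [NormedAddCommGroup F] [NormedSpace ℝ F]

/-- The flat extension of `(chi x / x ^ n) • g x`. -/
noncomputable def Fl (n : ℕ) (g : ℝ → F) (x : ℝ) : F :=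
  if x ≤ 0 then 0 else (chi x / x ^ n) • g x

theorem hasDerivAt_chi {x : ℝ} (hx : 0 < x) : HasDerivAt chi (kt x * chi x / x ^ 2) x := by
  have h1 : HasDerivAt chi (deriv chi x) x :=
    (chi_smooth.differentiable (by simp) x).hasDerivAt
  have h2 : deriv chi x = kt x * chi x / x ^ 2 := by
    rw [eq_div_iff (by positivity), ← chi_deriv]; ring
  rwa [h2] at h1

theorem hasDerivAt_chi_div (n : ℕ) {x : ℝ} (hx : 0 < x) :
    HasDerivAt (fun y => chi y / y ^ n) (chi x / x ^ (n + 2) * (kt x - n * x)) x := by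
  have h := (hasDerivAt_chi hx).div (hasDerivAt_pow n x) (by positivity)
  refine h.congr_deriv ?_
  have h3 : (n : ℝ) * x ^ (n - 1) * x = n * x ^ n := by
    cases n with
    | zero => simp
    | succ n => rw [Nat.add_sub_cancel]; ring
  have h4 : (n : ℝ) * x ^ (n - 1) = n * x ^ n / x := by
    rw [eq_div_iff hx.ne', h3]
  rw [h4]
  field_simp
  ring

/-- the function whose flat extension is the derivative of `Fl n g`. -/
noncomputable def dN (n : ℕ) (g : ℝ → F) : ℝ → F :=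
  fun y => kt y • g y + ((-(n : ℝ) * y) • g y + th g y)

theorem NN.dN {g : ℝ → F} (hg : NN g) (n : ℕ) : NN (Bil.dN n g) :=
  ((NN.of_contDiff kt_smooth).smul hg).add
    (((NN.of_contDiff (contDiff_const.mul contDiff_id)).smul hg).add hg.th)

theorem hasDerivAt_Fl_pos (n : ℕ) {g : ℝ → F} {x : ℝ} (hx : 0 < x)
    (hg : DifferentiableAt ℝ g x) : HasDerivAt (Fl n g) (Fl (n + 2) (dN n g) x) x := by
  have h1 : Fl n g =ᶠ[𝓝 x] fun y => (chi y / y ^ n) • g y := by
    filter_upwards [Ioi_mem_nhds hx] with y hy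
    rw [Fl, if_neg (not_le.2 hy)]
  refine HasDerivAt.congr_of_eventuallyEq ?_ h1
  refine ((hasDerivAt_chi_div n hx).smul hg.hasDerivAt).congr_deriv ?_
  rw [Fl, if_neg (not_le.2 hx), dN, th, smul_add, smul_add, smul_smul, smul_smul, smul_smul]
  have h2 : chi x / x ^ (n + 2) * x ^ 2 = chi x / x ^ n := by
    rw [pow_add]; field_simp
  rw [h2, add_comm, ← add_assoc, ← add_smul]
  congr 2
  ring

theorem hasDerivAt_Fl_zero (n : ℕ) {g : ℝ → F} (hg : NN g) :
    HasDerivAt (Fl n g) 0 (0 : ℝ) := by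
  have hb : (Fl n g) =O[𝓝 0] fun x : ℝ => ‖x - 0‖ ^ 2 := by
    obtain ⟨B, hB⟩ := hg.2 0
    have h1 : Tendsto (fun x : ℝ => |chi x / x ^ (n + 2)|) (𝓝 0)
        (𝓝 |chi 0 / 0 ^ (n + 2)|) := ((chi_div_smooth (n + 2)).continuous.tendsto 0).abs
    have h2 := h1.eventually (ge_mem_nhds (lt_add_one _))
    set D : ℝ := |chi 0 / 0 ^ (n + 2)| + 1
    rw [Asymptotics.isBigO_iff]
    have hD : 0 ≤ D := by positivity
    refine ⟨D * |B|, ?_⟩
    filter_upwards [h2, eventually_nhdsWithin_iff.1 hB] with x h3 h4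
    rw [sub_zero, norm_pow, norm_norm]
    by_cases hx : x ≤ 0
    · rw [Fl, if_pos hx, norm_zero]
      positivity
    · have hx0 : 0 < x := not_le.1 hx
      have h5 : ‖g x‖ ≤ |B| := (h4 hx0).trans (le_abs_self B)
      rw [Fl, if_neg hx, norm_smul]
      have h6 : ‖chi x / x ^ n‖ = |chi x / x ^ (n + 2)| * ‖x‖ ^ 2 := by
        rw [Real.norm_eq_abs, Real.norm_eq_abs, ← abs_pow, ← abs_mul]
        congr 1
        rw [pow_add]; field_simp
      rw [h6, mul_assoc, mul_assoc, mul_comm (‖x‖ ^ 2)]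
      exact mul_le_mul h3 (mul_le_mul_of_nonneg_right h5 (by positivity)) (by positivity) hD
  simpa using hb.hasFDerivAt (by norm_num) |>.hasDerivAt

theorem hasDerivAt_Fl (n : ℕ) {g : ℝ → F} (hg : NN g) :
    ∀ᶠ x in 𝓝 (0 : ℝ), HasDerivAt (Fl n g) (Fl (n + 2) (dN n g) x) x := by
  filter_upwards [eventually_nhdsWithin_iff.1 hg.diff] with x hx
  rcases lt_trichotomy x 0 with h | h | h
  · have h1 : Fl n g =ᶠ[𝓝 x] fun _ => 0 := by
      filter_upwards [Iio_mem_nhds h] with y hy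
      rw [Fl, if_pos (le_of_lt hy)]
    rw [Fl, if_pos h.le]
    exact (hasDerivAt_const x (0 : F)).congr_of_eventuallyEq h1
  · subst h
    rw [Fl, if_pos le_rfl]
    exact hasDerivAt_Fl_zero n hg
  · exact hasDerivAt_Fl_pos n h (hx h)

theorem contDiffAt_Fl_nat (m : ℕ) : ∀ (n : ℕ) (g : ℝ → F), NN g →
    ContDiffAt ℝ (m : WithTop ℕ∞) (Fl n g) 0 := by
  induction m with
  | zero =>
    intro n g hg
    rw [Nat.cast_zero, contDiffAt_zero]
    exact ⟨_, hasDerivAt_Fl n hg, fun x hx => hx.continuousAt.continuousWithinAt⟩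
  | succ m ih =>
    intro n g hg
    rw [Nat.cast_add, Nat.cast_one, contDiffAt_succ_iff_hasFDerivAt]
    refine ⟨fun x => ContinuousLinearMap.toSpanSingleton ℝ (Fl (n + 2) (dN n g) x),
      ⟨_, hasDerivAt_Fl n hg, fun x hx => ?_⟩, ?_⟩
    · exact hx.hasFDerivAt
    · exact (ContinuousLinearMap.toSpanSingletonCLE (𝕜 := ℝ) (E := F)).contDiff.contDiffAt.comp
        (0 : ℝ) (ih (n + 2) (dN n g) (hg.dN n))

theorem contDiffAt_Fl (n : ℕ) {g : ℝ → F} (hg : NN g) :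
    ContDiffAt ℝ ((⊤ : ℕ∞) : WithTop ℕ∞) (Fl n g) 0 :=
  contDiffAt_infty.2 fun m => contDiffAt_Fl_nat m n g hg

end flat

/-- a continuous function is bounded on `[0, 1/5]`, with a nonnegative bound. -/
theorem bd_Icc {f : ℝ → ℝ} (hf : Continuous f) :
    ∃ A : ℝ, 0 ≤ A ∧ ∀ x ∈ Icc (0 : ℝ) (1 / 5), |f x| ≤ A := by
  obtain ⟨A, hA⟩ := isCompact_Icc.bddAbove_image (f := fun x => |f x|) (K := Icc (0 : ℝ) (1 / 5))
    hf.abs.continuousOn
  refine ⟨A, ?_, fun x hx => hA ⟨x, hx, rfl⟩⟩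
  exact (abs_nonneg (f 0)).trans (hA ⟨0, ⟨le_rfl, by norm_num⟩, rfl⟩)

theorem gfun_eq_Fl {E : Type} (ε : ℝ) (u : ℝ → E) (Φ : ℝ × ℝ × ℝ × E → ℝ) :
    gfun ε u Φ = fun x => ε * Fl 0 (fun y => Φ (WW ε u y)) x := by
  funext x
  by_cases hx : x ≤ 0
  · simp [gfun, Fl, hx]
  · simp [gfun, Fl, hx, tt, mul_assoc]

end Pool.Agent.Helper65.Bil

namespace Pool.Agent.Helper58.Bil

open Real Set Filter Topology Pool.Agent.Helper65.Bil

theorem M7c {E : Type} [NormedAddCommGroup E] [NormedSpace ℝ E] [FiniteDimensional ℝ E]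
    (ρ C : ℝ) (Φ : ℝ × ℝ × ℝ × E → ℝ) (hΦ : SF Φ) :
    ∃ ε₃ > 0, ∃ C' : ℝ, ∀ ε ∈ Ioo 0 ε₃, ∀ u : ℝ → E,
      (∀ x > 0, ContDiffAt ℝ ((⊤ : ℕ∞) : WithTop ℕ∞) u x) →
      (∀ x > 0, ‖u x‖ ≤ ρ) → (∀ x > 0, ‖th u x‖ ≤ C) → (∀ x > 0, ‖th (th u) x‖ ≤ C) →
      (∀ k : ℕ, ∃ B : ℝ, ∀ x ∈ Ioc (0 : ℝ) (1 / 10), ‖(th^[k] u) x‖ ≤ B) →
      ContDiffOn ℝ ((⊤ : ℕ∞) : WithTop ℕ∞) (gfun ε u Φ) (Iio (1 / 5)) ∧
      ∀ x < 1 / 5, |gfun ε u Φ x| ≤ C' * ε ∧ |deriv (gfun ε u Φ) x| ≤ C' * ε ∧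
        |deriv (deriv (gfun ε u Φ)) x| ≤ C' * ε := by
  have : ProperSpace E := FiniteDimensional.proper ℝ E
  obtain ⟨r0, hr0, M0, hM0, H0⟩ := unif_bd hΦ (isCompact_closedBall (0 : E) ρ) 0 (1 / 5)
  obtain ⟨r1, hr1, M1, hM1, H1⟩ := unif_bd (SF.pro hΦ)
    ((isCompact_closedBall (0 : E) ρ).prod (isCompact_closedBall (0 : E) C)) 0 (1 / 5)
  obtain ⟨r2, hr2, M2, hM2, H2⟩ := unif_bd (SF.pro (SF.pro hΦ))
    (((isCompact_closedBall (0 : E) ρ).prod (isCompact_closedBall (0 : E) C)).prod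
      ((isCompact_closedBall (0 : E) C).prod (isCompact_closedBall (0 : E) C))) 0 (1 / 5)
  obtain ⟨A2, hA2, HA2⟩ := bd_Icc (chi_div_smooth 2).continuous
  obtain ⟨A4, hA4, HA4⟩ := bd_Icc (chi_div_smooth 4).continuous
  obtain ⟨A, hA, HA⟩ := bd_Icc kt_smooth.continuous
  obtain ⟨A', hA', HA'⟩ := bd_Icc (kt_smooth.continuous_deriv (by simp))
  set r := min r0 (min r1 r2) with hr
  have hrp : 0 < r := by positivity
  have hrr0 : r ≤ r0 := min_le_left _ _
  have hrr1 : r ≤ r1 := (min_le_right _ _).trans (min_le_left _ _)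
  have hrr2 : r ≤ r2 := (min_le_right _ _).trans (min_le_right _ _)
  refine ⟨r / (A2 + 1), by positivity, M0 + A2 * (A * M0 + M1) +
    A4 * ((A + 2) * (A * M0 + M1) + (A' * M0 + (A * M1 + M2))), ?_⟩
  intro ε hε u husm hu0 hu1 hu2 huk
  have hε0 : 0 < ε := hε.1
  have hε1 : ε * (A2 + 1) < r := by
    have := hε.2
    rwa [lt_div_iff₀ (by positivity)] at this
  have hεr : ε < r := by nlinarith
  have htt : ∀ x : ℝ, |tt ε x| < r := by
    intro x
    have h1 : 0 ≤ chi x := by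
      rcases le_or_gt x 0 with h | h
      · rw [chi_nonpos h]
      · exact (chi_pos h).le
    rw [tt, abs_of_nonneg (by positivity)]
    have := chi_le_one x
    nlinarith
  have hts : ∀ x ∈ Icc (0 : ℝ) (1 / 5), |ts ε x| < r := by
    intro x hx
    rw [ts, abs_mul, abs_of_pos hε0]
    have h1 : |k2 x| ≤ A2 := HA2 x hx
    nlinarith [abs_nonneg (k2 x)]
  -- the three functions
  set P0 : ℝ → ℝ := fun y => Φ (WW ε u y) with hP0
  set P1 : ℝ → ℝ := fun y => pro Φ (WW ε (fun z => (u z, th u z)) y) with hP1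
  set P2 : ℝ → ℝ := fun y => pro (pro Φ)
    (WW ε (fun z => ((u z, th u z), (th u z, th (th u) z))) y) with hP2
  have hmem : ∀ x ∈ Ioo (0 : ℝ) (1 / 5), x ∈ Icc (0 : ℝ) (1 / 5) := fun x hx => ⟨hx.1.le, hx.2.le⟩
  have B0 : ∀ x ∈ Ioo (0 : ℝ) (1 / 5),
      ContDiffAt ℝ ((⊤ : ℕ∞) : WithTop ℕ∞) Φ (WW ε u x) ∧ ‖P0 x‖ ≤ M0 := fun x hx =>
    H0 _ _ ((htt x).trans_le hrr0) ((hts x (hmem x hx)).trans_le hrr0) x (hmem x hx) (u x)
      (by simpa using hu0 x hx.1)
  have B1 : ∀ x ∈ Ioo (0 : ℝ) (1 / 5),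
      ContDiffAt ℝ ((⊤ : ℕ∞) : WithTop ℕ∞) (pro Φ) (WW ε (fun z => (u z, th u z)) x) ∧
        ‖P1 x‖ ≤ M1 := fun x hx =>
    H1 _ _ ((htt x).trans_le hrr1) ((hts x (hmem x hx)).trans_le hrr1) x (hmem x hx)
      (u x, th u x) ⟨by simpa using hu0 x hx.1, by simpa using hu1 x hx.1⟩
  have B2 : ∀ x ∈ Ioo (0 : ℝ) (1 / 5), ‖P2 x‖ ≤ M2 := fun x hx =>
    (H2 _ _ ((htt x).trans_le hrr2) ((hts x (hmem x hx)).trans_le hrr2) x (hmem x hx)
      ((u x, th u x), (th u x, th (th u) x)) ⟨⟨by simpa using hu0 x hx.1, by simpa using hu1 x hx.1⟩,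
        ⟨by simpa using hu1 x hx.1, by simpa using hu2 x hx.1⟩⟩).2
  have hud : ∀ x > 0, DifferentiableAt ℝ u x := fun x hx => (husm x hx).differentiableAt (by simp)
  have hud1 : ∀ x > 0, DifferentiableAt ℝ (th u) x := fun x hx =>
    (contDiffAt_th (husm x hx)).differentiableAt (by simp)
  have T01 : ∀ x ∈ Ioo (0 : ℝ) (1 / 5), th P0 x = P1 x := fun x hx =>
    th_pro hx.1 (hud x hx.1) ((B0 x hx).1.differentiableAt (by simp))
  have T12 : ∀ x ∈ Ioo (0 : ℝ) (1 / 5), th P1 x = P2 x := by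
    intro x hx
    have h1 := th_pro (ε := ε) hx.1 ((hud x hx.1).prodMk (hud1 x hx.1))
      ((B1 x hx).1.differentiableAt (by simp))
    have h2 : th (fun z => (u z, th u z)) x = (th u x, th (th u) x) :=
      th_prodMk (hud x hx.1) (hud1 x hx.1)
    have h3 : WW ε (fun y => ((u y, th u y), th (fun z => (u z, th u z)) y)) x =
        WW ε (fun z => ((u z, th u z), (th u z, th (th u) z))) x := by
      simp only [WW, h2]
    rw [h3] at h1
    exact h1
  have S0 : ∀ x ∈ Ioo (0 : ℝ) (1 / 5), ContDiffAt ℝ ((⊤ : ℕ∞) : WithTop ℕ∞) P0 x :=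
    fun x hx => (B0 x hx).1.comp x (contDiffAt_WW (husm x hx.1))
  have S1 : ∀ x ∈ Ioo (0 : ℝ) (1 / 5), ContDiffAt ℝ ((⊤ : ℕ∞) : WithTop ℕ∞) P1 x :=
    fun x hx => (B1 x hx).1.comp x
      (contDiffAt_WW ((husm x hx.1).prodMk (contDiffAt_th (husm x hx.1))))
  have D0 : ∀ x ∈ Ioo (0 : ℝ) (1 / 5), HasDerivAt P0 (P1 x / x ^ 2) x := by
    intro x hx
    have h1 : HasDerivAt P0 (deriv P0 x) x := ((S0 x hx).differentiableAt (by simp)).hasDerivAt
    have h2 : x ^ 2 * deriv P0 x = P1 x := T01 x hx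
    have h3 : 0 < x := hx.1
    rwa [show deriv P0 x = P1 x / x ^ 2 by rw [← h2]; field_simp] at h1
  have D1 : ∀ x ∈ Ioo (0 : ℝ) (1 / 5), HasDerivAt P1 (P2 x / x ^ 2) x := by
    intro x hx
    have h1 : HasDerivAt P1 (deriv P1 x) x := ((S1 x hx).differentiableAt (by simp)).hasDerivAt
    have h2 : x ^ 2 * deriv P1 x = P2 x := T12 x hx
    have h3 : 0 < x := hx.1
    rwa [show deriv P1 x = P2 x / x ^ 2 by rw [← h2]; field_simp] at h1
  have Dtt : ∀ x > 0, HasDerivAt (tt ε) (kt x * ts ε x) x := by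
    intro x hx
    refine ((hasDerivAt_chi hx).const_mul ε).congr_deriv ?_
    rw [ts, k2]; ring
  have Dts : ∀ x > 0, HasDerivAt (ts ε) ((kt x - 2 * x) * (ε * (chi x / x ^ 4))) x := by
    intro x hx
    refine ((hasDerivAt_chi_div 2 hx).const_mul ε).congr_deriv ?_
    push_cast
    ring
  have Dkt : ∀ x, HasDerivAt kt (deriv kt x) x := fun x =>
    (kt_smooth.differentiable (by simp) x).hasDerivAt
  -- first derivative
  have E1 : ∀ x ∈ Ioo (0 : ℝ) (1 / 5),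
      deriv (gfun ε u Φ) x = ts ε x * (kt x * P0 x + P1 x) := by
    intro x hx
    have hx0 : 0 < x := hx.1
    have h1 : gfun ε u Φ =ᶠ[𝓝 x] fun y => tt ε y * P0 y := by
      filter_upwards [Ioi_mem_nhds hx0] with y hy
      rw [gfun, if_neg (not_le.2 hy)]
    rw [h1.deriv_eq]
    refine ((Dtt x hx0).mul (D0 x hx)).deriv.trans ?_
    rw [ts, k2, tt]
    field_simp
  have E2 : ∀ x ∈ Ioo (0 : ℝ) (1 / 5),
      deriv (deriv (gfun ε u Φ)) x = ε * (chi x / x ^ 4) *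
        ((kt x - 2 * x) * (kt x * P0 x + P1 x) +
          (x ^ 2 * deriv kt x * P0 x + (kt x * P1 x + P2 x))) := by
    intro x hx
    have hx0 : 0 < x := hx.1
    have h1 : deriv (gfun ε u Φ) =ᶠ[𝓝 x] fun y => ts ε y * (kt y * P0 y + P1 y) := by
      filter_upwards [isOpen_Ioo.mem_nhds hx] with y hy
      exact E1 y hy
    rw [h1.deriv_eq]
    refine ((Dts x hx0).mul (((Dkt x).mul (D0 x hx)).add (D1 x hx))).deriv.trans ?_
    simp only [Pi.add_apply, Pi.mul_apply, ts, k2]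
    field_simp
    ring
  -- smoothness at zero
  have hN : NN u := by
    refine ⟨?_, fun k => ?_⟩
    · filter_upwards [self_mem_nhdsWithin] with x hx
      exact husm x hx
    · obtain ⟨B, hB⟩ := huk k
      refine ⟨B, ?_⟩
      filter_upwards [Ioc_mem_nhdsGT (show (0 : ℝ) < 1 / 10 by norm_num)] with x hx
      exact hB x hx
  have hNP : NN P0 := NN.comp hΦ ε hN
  have hg := gfun_eq_Fl ε u Φ
  have Z1 : deriv (gfun ε u Φ) =ᶠ[𝓝 0] fun x => ε * Fl 2 (dN 0 P0) x := by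
    filter_upwards [hasDerivAt_Fl 0 hNP] with x hx
    rw [hg]
    exact (hx.const_mul ε).deriv
  have Z2 : deriv (deriv (gfun ε u Φ)) 0 = 0 := by
    rw [Z1.deriv_eq, ((hasDerivAt_Fl_zero 2 (hNP.dN 0)).const_mul ε).deriv, mul_zero]
  have Fl0 : ∀ (n : ℕ) (g : ℝ → ℝ) (x : ℝ), x ≤ 0 → Fl n g x = 0 := by
    intro n g x hx
    rw [Fl, if_pos hx]
  have Z1' : deriv (gfun ε u Φ) 0 = 0 := by
    have h1 : deriv (gfun ε u Φ) 0 = ε * Fl 2 (dN 0 P0) 0 := Z1.self_of_nhds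
    rw [h1, Fl0 _ _ _ le_rfl, mul_zero]
  refine ⟨?_, ?_⟩
  · intro x hx
    apply ContDiffAt.contDiffWithinAt
    rcases lt_trichotomy x 0 with h | h | h
    · have h1 : gfun ε u Φ =ᶠ[𝓝 x] fun _ => 0 := by
        filter_upwards [Iio_mem_nhds h] with y hy
        rw [gfun, if_pos (le_of_lt hy)]
      exact contDiffAt_const.congr_of_eventuallyEq h1
    · subst h
      rw [hg]
      exact contDiffAt_const.mul (contDiffAt_Fl 0 hNP)
    · have h1 : gfun ε u Φ =ᶠ[𝓝 x] fun y => tt ε y * P0 y := by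
        filter_upwards [Ioi_mem_nhds h] with y hy
        rw [gfun, if_neg (not_le.2 hy)]
      exact ((contDiffAt_tt ε x).mul (S0 x ⟨h, hx⟩)).congr_of_eventuallyEq h1
  · intro x hx
    have hC0 : 0 ≤ A2 * (A * M0 + M1) := by positivity
    have hC1 : 0 ≤ A4 * ((A + 2) * (A * M0 + M1) + (A' * M0 + (A * M1 + M2))) := by positivity
    have hC : 0 ≤ (M0 + A2 * (A * M0 + M1) +
      A4 * ((A + 2) * (A * M0 + M1) + (A' * M0 + (A * M1 + M2)))) * ε := by positivity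
    rcases lt_trichotomy x 0 with h | h | h
    · have h1 : gfun ε u Φ =ᶠ[𝓝 x] fun _ => 0 := by
        filter_upwards [Iio_mem_nhds h] with y hy
        rw [gfun, if_pos (le_of_lt hy)]
      have h2 : deriv (gfun ε u Φ) =ᶠ[𝓝 x] fun _ => 0 := by
        refine h1.deriv.trans ?_
        simp
      have h3 : deriv (deriv (gfun ε u Φ)) x = 0 := by
        rw [h2.deriv_eq]; simp
      rw [h1.self_of_nhds, h2.self_of_nhds, h3, abs_zero]
      exact ⟨hC, hC, hC⟩
    · subst h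
      rw [Z1', Z2, gfun, if_pos le_rfl, abs_zero]
      exact ⟨hC, hC, hC⟩
    · have hxI : x ∈ Ioo (0 : ℝ) (1 / 5) := ⟨h, hx⟩
      have hxc := hmem x hxI
      have b0 : |P0 x| ≤ M0 := (B0 x hxI).2
      have b1 : |P1 x| ≤ M1 := (B1 x hxI).2
      have b2 : |P2 x| ≤ M2 := B2 x hxI
      have bk : |kt x| ≤ A := HA x hxc
      have bk' : |deriv kt x| ≤ A' := HA' x hxc
      have b02 : |k2 x| ≤ A2 := HA2 x hxc
      have b04 : |chi x / x ^ 4| ≤ A4 := HA4 x hxc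
      have bx : |x| ≤ 1 := by rw [abs_of_pos h]; linarith
      have bS : |kt x * P0 x + P1 x| ≤ A * M0 + M1 := by
        refine (abs_add_le _ _).trans (add_le_add ?_ b1)
        rw [abs_mul]
        exact mul_le_mul bk b0 (abs_nonneg _) hA
      have bK : |kt x - 2 * x| ≤ A + 2 := by
        refine (abs_sub _ _).trans (add_le_add bk ?_)
        rw [abs_mul, abs_two]
        linarith
      refine ⟨?_, ?_, ?_⟩
      · have h1 : gfun ε u Φ x = ε * chi x * P0 x := by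
          rw [gfun, if_neg (not_le.2 h)]; rfl
        rw [h1, abs_mul, abs_mul, abs_of_pos hε0, abs_of_pos (chi_pos h)]
        have h2 : ε * chi x * |P0 x| ≤ ε * 1 * M0 :=
          mul_le_mul (mul_le_mul_of_nonneg_left (chi_le_one x) hε0.le) b0 (abs_nonneg _)
            (by positivity)
        refine h2.trans ?_
        rw [mul_one, mul_comm ε M0]
        exact mul_le_mul_of_nonneg_right (by linarith) hε0.le
      · rw [E1 x hxI, ts, abs_mul, abs_mul, abs_of_pos hε0]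
        have h2 : ε * |k2 x| * |kt x * P0 x + P1 x| ≤ ε * A2 * (A * M0 + M1) :=
          mul_le_mul (mul_le_mul_of_nonneg_left b02 hε0.le) bS (abs_nonneg _) (by positivity)
        refine h2.trans ?_
        rw [mul_assoc, mul_comm ε]
        exact mul_le_mul_of_nonneg_right (by linarith) hε0.le
      · rw [E2 x hxI, abs_mul, abs_mul, abs_of_pos hε0]
        have h3 : |(kt x - 2 * x) * (kt x * P0 x + P1 x) +
            (x ^ 2 * deriv kt x * P0 x + (kt x * P1 x + P2 x))| ≤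
            (A + 2) * (A * M0 + M1) + (A' * M0 + (A * M1 + M2)) := by
          refine (abs_add_le _ _).trans (add_le_add ?_ ((abs_add_le _ _).trans
            (add_le_add ?_ ((abs_add_le _ _).trans (add_le_add ?_ b2)))))
          · rw [abs_mul]
            exact mul_le_mul bK bS (abs_nonneg _) (by positivity)
          · rw [abs_mul, abs_mul]
            refine mul_le_mul ?_ b0 (abs_nonneg _) hA'
            have : |x ^ 2| ≤ 1 := by rw [abs_pow]; exact pow_le_one₀ (abs_nonneg _) bx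
            calc |x ^ 2| * |deriv kt x| ≤ 1 * A' :=
                  mul_le_mul this bk' (abs_nonneg _) zero_le_one
              _ = A' := one_mul _
          · rw [abs_mul]
            exact mul_le_mul bk b1 (abs_nonneg _) hA
        have h2 := mul_le_mul (mul_le_mul_of_nonneg_left b04 hε0.le) h3 (abs_nonneg _)
          (mul_nonneg hε0.le hA4)
        refine h2.trans ?_
        rw [mul_assoc, mul_comm ε]
        exact mul_le_mul_of_nonneg_right (by linarith) hε0.le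

end Pool.Agent.Helper58.Bil
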