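import Pool.Agent.Helper28.Bil.Pro

/-!
The class of smooth germs at `0+` all of whose `x² d/dx`-derivatives are bounded
(offer BIL-M7c, MP_190632_an).
-/

set_option autoImplicit false

namespace Pool.Agent.Helper65.Bil

open Real Set Filter Topology Pool.Agent.Helper58.Bil

/-- Smooth germs at `0+` all of whose `th`-derivatives are bounded. -/
def NN {F : Type} [NormedAddCommGroup F] [NormedSpace ℝ F] (g : ℝ → F) : Prop :=
  (∀ᶠ x in 𝓝[>] (0 : ℝ), ContDiffAt ℝ ((⊤ : ℕ∞) : WithTop ℕ∞) g x) ∧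
    ∀ k : ℕ, ∃ B : ℝ, ∀ᶠ x in 𝓝[>] (0 : ℝ), ‖(th^[k] g) x‖ ≤ B

section

variable {E F : Type} [NormedAddCommGroup E] [NormedSpace ℝ E]
  [NormedAddCommGroup F] [NormedSpace ℝ F]

theorem ev_ev_pos {p : ℝ → Prop} (h : ∀ᶠ x in 𝓝[>] (0 : ℝ), p x) :
    ∀ᶠ x in 𝓝[>] (0 : ℝ), ∀ᶠ y in 𝓝 x, p y := by
  have h1 := eventually_eventually_nhdsWithin.2 h
  filter_upwards [h1, self_mem_nhdsWithin] with x hx hx0
  rwa [nhdsWithin_eq_nhds.2 (Ioi_mem_nhds hx0)] at hx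

theorem th_congr {f g : ℝ → F} {x : ℝ} (h : f =ᶠ[𝓝 x] g) : th f x = th g x := by
  simp [th, h.deriv_eq]

theorem th_evEq {f g : ℝ → F} (h : f =ᶠ[𝓝[>] (0 : ℝ)] g) :
    th f =ᶠ[𝓝[>] (0 : ℝ)] th g := by
  filter_upwards [ev_ev_pos h] with x hx
  exact th_congr hx

theorem th_iter_evEq {f g : ℝ → F} (h : f =ᶠ[𝓝[>] (0 : ℝ)] g) (k : ℕ) :
    th^[k] f =ᶠ[𝓝[>] (0 : ℝ)] th^[k] g := by
  induction k generalizing f g with
  | zero => simpa using h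
  | succ k ih =>
    rw [Function.iterate_succ_apply, Function.iterate_succ_apply]
    exact ih (th_evEq h)

theorem NN.congr {f g : ℝ → F} (h : f =ᶠ[𝓝[>] (0 : ℝ)] g) (hf : NN f) : NN g := by
  refine ⟨?_, ?_⟩
  · filter_upwards [hf.1, ev_ev_pos h] with x hx hx'
    exact hx.congr_of_eventuallyEq (hx'.mono fun y hy => hy.symm)
  · intro k
    obtain ⟨B, hB⟩ := hf.2 k
    refine ⟨B, ?_⟩
    filter_upwards [hB, th_iter_evEq h k] with x hx hx'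
    rwa [← hx']

theorem contDiffAt_th {g : ℝ → F} {x : ℝ}
    (h : ContDiffAt ℝ ((⊤ : ℕ∞) : WithTop ℕ∞) g x) :
    ContDiffAt ℝ ((⊤ : ℕ∞) : WithTop ℕ∞) (th g) x := by
  have h1 : ContDiffAt ℝ ((⊤ : ℕ∞) : WithTop ℕ∞) (deriv g) x := by
    have h2 := h.fderiv_right (m := ((⊤ : ℕ∞) : WithTop ℕ∞)) (by simp)
    have h3 : deriv g = fun y => (fderiv ℝ g y) 1 := by
      ext y; simp
    rw [h3]
    exact h2.clm_apply contDiffAt_const
  unfold th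
  exact (contDiffAt_id.pow 2).smul h1

theorem NN.th {g : ℝ → F} (h : NN g) : NN (Helper58.Bil.th g) := by
  refine ⟨h.1.mono fun x hx => contDiffAt_th hx, ?_⟩
  intro k
  obtain ⟨B, hB⟩ := h.2 (k + 1)
  refine ⟨B, ?_⟩
  simpa only [Function.iterate_succ_apply] using hB

theorem th_add {f g : ℝ → F} {x : ℝ} (hf : DifferentiableAt ℝ f x)
    (hg : DifferentiableAt ℝ g x) : th (fun y => f y + g y) x = th f x + th g x := by
  simp only [th]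
  rw [deriv_fun_add hf hg, smul_add]

theorem th_smul {c : ℝ → ℝ} {g : ℝ → F} {x : ℝ} (hc : DifferentiableAt ℝ c x)
    (hg : DifferentiableAt ℝ g x) :
    th (fun y => c y • g y) x = th c x • g x + c x • th g x := by
  simp only [th]
  rw [deriv_fun_smul hc hg, smul_add, smul_eq_mul, mul_smul, smul_comm (x ^ 2) (c x), add_comm]

theorem th_prodMk {f : ℝ → E} {g : ℝ → F} {x : ℝ} (hf : DifferentiableAt ℝ f x)
    (hg : DifferentiableAt ℝ g x) : th (fun y => (f y, g y)) x = (th f x, th g x) := by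
  simp only [th]
  rw [(hf.hasDerivAt.prodMk hg.hasDerivAt).deriv]
  rfl

theorem NN.diff {g : ℝ → F} (h : NN g) : ∀ᶠ x in 𝓝[>] (0 : ℝ), DifferentiableAt ℝ g x :=
  h.1.mono fun _ hx => hx.differentiableAt (by simp)

theorem th_iter_add' {f g : ℝ → F}
    (hf : ∀ᶠ x in 𝓝[>] (0 : ℝ), ContDiffAt ℝ ((⊤ : ℕ∞) : WithTop ℕ∞) f x)
    (hg : ∀ᶠ x in 𝓝[>] (0 : ℝ), ContDiffAt ℝ ((⊤ : ℕ∞) : WithTop ℕ∞) g x) (k : ℕ) :
    th^[k] (fun y => f y + g y) =ᶠ[𝓝[>] (0 : ℝ)] fun y => (th^[k] f) y + (th^[k] g) y := by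
  induction k generalizing f g with
  | zero => exact Eventually.of_forall fun x => rfl
  | succ k ih =>
    simp only [Function.iterate_succ_apply]
    have h1 : th (fun y => f y + g y) =ᶠ[𝓝[>] (0 : ℝ)] fun y => th f y + th g y := by
      filter_upwards [hf, hg] with x h1 h2
      exact th_add (h1.differentiableAt (by simp)) (h2.differentiableAt (by simp))
    exact (th_iter_evEq h1 k).trans (ih (hf.mono fun x hx => contDiffAt_th hx)
      (hg.mono fun x hx => contDiffAt_th hx))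

theorem th_iter_add {f g : ℝ → F} (hf : NN f) (hg : NN g) (k : ℕ) :
    th^[k] (fun y => f y + g y) =ᶠ[𝓝[>] (0 : ℝ)] fun y => (th^[k] f) y + (th^[k] g) y :=
  th_iter_add' hf.1 hg.1 k

theorem NN.add {f g : ℝ → F} (hf : NN f) (hg : NN g) : NN (fun y => f y + g y) := by
  refine ⟨?_, ?_⟩
  · filter_upwards [hf.1, hg.1] with x h1 h2
    exact h1.add h2
  · intro k
    obtain ⟨B, hB⟩ := hf.2 k
    obtain ⟨B', hB'⟩ := hg.2 k
    refine ⟨B + B', ?_⟩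
    filter_upwards [hB, hB', th_iter_add hf hg k] with x h1 h2 h3
    rw [h3]
    exact (norm_add_le _ _).trans (add_le_add h1 h2)

theorem th_iter_prodMk {f : ℝ → E} {g : ℝ → F} (hf : NN f) (hg : NN g) (k : ℕ) :
    th^[k] (fun y => (f y, g y)) =ᶠ[𝓝[>] (0 : ℝ)] fun y => ((th^[k] f) y, (th^[k] g) y) := by
  induction k generalizing f g with
  | zero => exact Eventually.of_forall fun x => rfl
  | succ k ih =>
    simp only [Function.iterate_succ_apply]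
    have h1 : th (fun y => (f y, g y)) =ᶠ[𝓝[>] (0 : ℝ)] fun y => (th f y, th g y) := by
      filter_upwards [hf.diff, hg.diff] with x h1 h2
      exact th_prodMk h1 h2
    exact (th_iter_evEq h1 k).trans (ih hf.th hg.th)

theorem NN.prodMk {f : ℝ → E} {g : ℝ → F} (hf : NN f) (hg : NN g) :
    NN (fun y => (f y, g y)) := by
  refine ⟨?_, ?_⟩
  · filter_upwards [hf.1, hg.1] with x h1 h2
    exact h1.prodMk h2
  · intro k
    obtain ⟨B, hB⟩ := hf.2 k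
    obtain ⟨B', hB'⟩ := hg.2 k
    refine ⟨max B B', ?_⟩
    filter_upwards [hB, hB', th_iter_prodMk hf hg k] with x h1 h2 h3
    rw [h3]
    exact max_le_max h1 h2

theorem smul_bdd {c : ℝ → ℝ} {g : ℝ → F} (hc : NN c) (hg : NN g) (k : ℕ) :
    ∃ B : ℝ, ∀ᶠ x in 𝓝[>] (0 : ℝ), ‖(th^[k] (fun y => c y • g y)) x‖ ≤ B := by
  induction k generalizing c g with
  | zero =>
    obtain ⟨B, hB⟩ := hc.2 0
    obtain ⟨B', hB'⟩ := hg.2 0
    refine ⟨B * B', ?_⟩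
    filter_upwards [hB, hB'] with x h1 h2
    simp only [Function.iterate_zero, id_eq] at h1 h2 ⊢
    rw [norm_smul]
    exact mul_le_mul h1 h2 (norm_nonneg _) ((norm_nonneg _).trans h1)
  | succ k ih =>
    obtain ⟨B, hB⟩ := ih hc.th hg
    obtain ⟨B', hB'⟩ := ih hc hg.th
    refine ⟨B + B', ?_⟩
    simp only [Function.iterate_succ_apply]
    have h1 : th (fun y => c y • g y) =ᶠ[𝓝[>] (0 : ℝ)]
        fun y => th c y • g y + c y • th g y := by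
      filter_upwards [hc.diff, hg.diff] with x h1 h2
      exact th_smul h1 h2
    have h2 : ∀ᶠ x in 𝓝[>] (0 : ℝ), ContDiffAt ℝ ((⊤ : ℕ∞) : WithTop ℕ∞)
        (fun y => th c y • g y) x := by
      filter_upwards [hc.th.1, hg.1] with x h1 h2
      exact h1.smul h2
    have h3 : ∀ᶠ x in 𝓝[>] (0 : ℝ), ContDiffAt ℝ ((⊤ : ℕ∞) : WithTop ℕ∞)
        (fun y => c y • th g y) x := by
      filter_upwards [hc.1, hg.th.1] with x h1 h2
      exact h1.smul h2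
    filter_upwards [hB, hB', th_iter_evEq h1 k, th_iter_add' h2 h3 k] with x h4 h5 h6 h7
    rw [h6, h7]
    exact (norm_add_le _ _).trans (add_le_add h4 h5)

theorem NN.smul {c : ℝ → ℝ} {g : ℝ → F} (hc : NN c) (hg : NN g) :
    NN (fun y => c y • g y) := by
  refine ⟨?_, smul_bdd hc hg⟩
  filter_upwards [hc.1, hg.1] with x h1 h2
  exact h1.smul h2

theorem contDiff_th_iter {f : ℝ → F} (hf : ContDiff ℝ ((⊤ : ℕ∞) : WithTop ℕ∞) f) (k : ℕ) :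
    ContDiff ℝ ((⊤ : ℕ∞) : WithTop ℕ∞) (th^[k] f) := by
  induction k generalizing f with
  | zero => simpa using hf
  | succ k ih =>
    rw [Function.iterate_succ_apply]
    exact ih (contDiff_iff_contDiffAt.2 fun x => contDiffAt_th hf.contDiffAt)

theorem NN.of_contDiff {f : ℝ → F} (hf : ContDiff ℝ ((⊤ : ℕ∞) : WithTop ℕ∞) f) : NN f := by
  refine ⟨Eventually.of_forall fun x => hf.contDiffAt, fun k => ?_⟩
  have h1 : Continuous (Helper58.Bil.th^[k] f) := (contDiff_th_iter hf k).continuous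
  refine ⟨‖(Helper58.Bil.th^[k] f) 0‖ + 1, ?_⟩
  have h2 : Tendsto (fun x => ‖(Helper58.Bil.th^[k] f) x‖) (𝓝 0) (𝓝 ‖(Helper58.Bil.th^[k] f) 0‖) :=
    h1.norm.tendsto 0
  exact ((h2.eventually (ge_mem_nhds (lt_add_one _))).filter_mono nhdsWithin_le_nhds)

/-- Uniform smoothness and boundedness near the base over a compact region. -/
theorem unif_bd {Φ : ℝ × ℝ × ℝ × E → F} (hΦ : SF Φ) {K : Set E} (hK : IsCompact K)
    (x₀ x₁ : ℝ) :
    ∃ r > 0, ∃ M : ℝ, 0 ≤ M ∧ ∀ t s : ℝ, |t| < r → |s| < r → ∀ x ∈ Icc x₀ x₁, ∀ u ∈ K,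
      ContDiffAt ℝ ((⊤ : ℕ∞) : WithTop ℕ∞) Φ (t, s, x, u) ∧ ‖Φ (t, s, x, u)‖ ≤ M := by
  have hc : ContinuousOn (fun p : ℝ × E => ‖Φ (0, 0, p.1, p.2)‖) (Icc x₀ x₁ ×ˢ K) := by
    intro p _
    have h1 : ContinuousAt Φ (0, 0, p.1, p.2) := (hΦ p.1 p.2).self_of_nhds.continuousAt
    have h2 : ContinuousAt (fun p : ℝ × E => ((0, 0, p.1, p.2) : ℝ × ℝ × ℝ × E)) p := by
      fun_prop
    exact (ContinuousAt.comp (f := fun p : ℝ × E => ((0, 0, p.1, p.2) : ℝ × ℝ × ℝ × E))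
      h1 h2).norm.continuousWithinAt
  obtain ⟨M, hM⟩ := (isCompact_Icc.prod hK).bddAbove_image hc
  have hM' : ∀ x ∈ Icc x₀ x₁, ∀ u ∈ K, ‖Φ (0, 0, x, u)‖ ≤ M := by
    intro x hx u hu
    exact hM ⟨(x, u), ⟨hx, hu⟩, rfl⟩
  obtain ⟨r, hr, h⟩ := unif_base (E := E) hK (x₀ := x₀) (x₁ := x₁)
    (Q := fun w => ContDiffAt ℝ ((⊤ : ℕ∞) : WithTop ℕ∞) Φ w ∧ ‖Φ w‖ ≤ max M 0 + 1) (by
      intro x hx u hu
      have h1 : ContinuousAt Φ (0, 0, x, u) := (hΦ x u).self_of_nhds.continuousAt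
      have h2 : ∀ᶠ w in 𝓝 ((0, 0, x, u) : ℝ × ℝ × ℝ × E), ‖Φ w‖ ≤ max M 0 + 1 := by
        refine h1.norm.eventually (ge_mem_nhds ?_)
        have := hM' x hx u hu
        have := le_max_left M 0
        linarith
      exact (hΦ x u).and h2)
  exact ⟨r, hr, max M 0 + 1, by positivity, h⟩

theorem contDiffAt_k2 (x : ℝ) : ContDiffAt ℝ ((⊤ : ℕ∞) : WithTop ℕ∞) k2 x :=
  (chi_div_smooth 2).contDiffAt

theorem contDiffAt_ts (ε x : ℝ) : ContDiffAt ℝ ((⊤ : ℕ∞) : WithTop ℕ∞) (ts ε) x :=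
  contDiffAt_const.mul (contDiffAt_k2 x)

theorem contDiffAt_tt (ε x : ℝ) : ContDiffAt ℝ ((⊤ : ℕ∞) : WithTop ℕ∞) (tt ε) x :=
  contDiffAt_const.mul chi_smooth.contDiffAt

theorem tt_zero (ε : ℝ) : tt ε 0 = 0 := by simp [tt, chi_nonpos]

theorem ts_zero (ε : ℝ) : ts ε 0 = 0 := by simp [ts, k2, chi_nonpos]

theorem contDiffAt_WW {ε : ℝ} {u : ℝ → E} {x : ℝ}
    (hu : ContDiffAt ℝ ((⊤ : ℕ∞) : WithTop ℕ∞) u x) :
    ContDiffAt ℝ ((⊤ : ℕ∞) : WithTop ℕ∞) (WW ε u) x :=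
  (contDiffAt_tt ε x).prodMk ((contDiffAt_ts ε x).prodMk (contDiffAt_id.prodMk hu))

/-- near `0+` the point `WW ε u x` is near the base. -/
theorem ev_WW [FiniteDimensional ℝ E] {Φ : ℝ × ℝ × ℝ × E → F} (hΦ : SF Φ) (ε : ℝ) {u : ℝ → E}
    {B : ℝ} (hu : ∀ᶠ x in 𝓝[>] (0 : ℝ), ‖u x‖ ≤ B) :
    ∃ M : ℝ, ∀ᶠ x in 𝓝[>] (0 : ℝ), ContDiffAt ℝ ((⊤ : ℕ∞) : WithTop ℕ∞) Φ (WW ε u x) ∧
      ‖Φ (WW ε u x)‖ ≤ M := by
  have : ProperSpace E := FiniteDimensional.proper ℝ E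
  obtain ⟨r, hr, M, _, h⟩ := unif_bd hΦ (isCompact_closedBall (0 : E) B) 0 1
  refine ⟨M, ?_⟩
  have h1 : ∀ᶠ x in 𝓝[>] (0 : ℝ), |tt ε x| < r := by
    have : Tendsto (fun x => |tt ε x|) (𝓝 0) (𝓝 |tt ε 0|) :=
      (contDiffAt_tt ε 0).continuousAt.abs
    rw [tt_zero, abs_zero] at this
    exact (this.eventually (gt_mem_nhds hr)).filter_mono nhdsWithin_le_nhds
  have h2 : ∀ᶠ x in 𝓝[>] (0 : ℝ), |ts ε x| < r := by
    have : Tendsto (fun x => |ts ε x|) (𝓝 0) (𝓝 |ts ε 0|) :=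
      (contDiffAt_ts ε 0).continuousAt.abs
    rw [ts_zero, abs_zero] at this
    exact (this.eventually (gt_mem_nhds hr)).filter_mono nhdsWithin_le_nhds
  have h3 : ∀ᶠ x in 𝓝[>] (0 : ℝ), x < 1 :=
    (gt_mem_nhds (zero_lt_one (α := ℝ))).filter_mono nhdsWithin_le_nhds
  filter_upwards [h1, h2, h3, self_mem_nhdsWithin, hu] with x a1 a2 a3 a4 a5
  exact h _ _ a1 a2 x ⟨(show (0:ℝ) < x from a4).le, a3.le⟩ (u x) (by simpa using a5)

end

theorem comp_bdd (k : ℕ) : ∀ (E F : Type) [NormedAddCommGroup E] [NormedSpace ℝ E]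
    [FiniteDimensional ℝ E] [NormedAddCommGroup F] [NormedSpace ℝ F]
    (Φ : ℝ × ℝ × ℝ × E → F) (_ : SF Φ) (ε : ℝ) (u : ℝ → E) (_ : NN u),
    ∃ B : ℝ, ∀ᶠ x in 𝓝[>] (0 : ℝ), ‖(th^[k] (fun y => Φ (WW ε u y))) x‖ ≤ B := by
  induction k with
  | zero =>
    intro E F _ _ _ _ _ Φ hΦ ε u hu
    obtain ⟨B, hB⟩ := hu.2 0
    obtain ⟨M, hM⟩ := ev_WW hΦ ε hB
    exact ⟨M, hM.mono fun x hx => hx.2⟩
  | succ k ih =>
    intro E F _ _ _ _ _ Φ hΦ ε u hu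
    obtain ⟨B, hB⟩ := hu.2 0
    obtain ⟨M, hM⟩ := ev_WW hΦ ε hB
    obtain ⟨B', hB'⟩ := ih (E × E) F (pro Φ) (SF.pro hΦ) ε (fun y => (u y, th u y))
      (hu.prodMk hu.th)
    refine ⟨B', ?_⟩
    have h1 : th (fun y => Φ (WW ε u y)) =ᶠ[𝓝[>] (0 : ℝ)]
        fun y => pro Φ (WW ε (fun y => (u y, th u y)) y) := by
      filter_upwards [hM, hu.diff, self_mem_nhdsWithin] with x a1 a2 a3
      exact th_pro a3 a2 (a1.1.differentiableAt (by simp))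
    simp only [Function.iterate_succ_apply]
    filter_upwards [th_iter_evEq h1 k, hB'] with x b1 b2
    rwa [b1]

theorem NN.comp {E F : Type} [NormedAddCommGroup E] [NormedSpace ℝ E]
    [FiniteDimensional ℝ E] [NormedAddCommGroup F] [NormedSpace ℝ F]
    {Φ : ℝ × ℝ × ℝ × E → F} (hΦ : SF Φ) (ε : ℝ) {u : ℝ → E} (hu : NN u) :
    NN (fun y => Φ (WW ε u y)) := by
  refine ⟨?_, fun k => comp_bdd k E F Φ hΦ ε u hu⟩
  obtain ⟨B, hB⟩ := hu.2 0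
  obtain ⟨M, hM⟩ := ev_WW hΦ ε hB
  filter_upwards [hM, hu.1] with x a1 a2
  exact a1.1.comp x (contDiffAt_WW a2)

end Pool.Agent.Helper65.Bil
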